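import Pool.Agent.K7.H41.OP.Stm

set_option autoImplicit false

/-! OP job DIV. -/

namespace Pool.Agent.K7.H3.OP

open Pool.Agent.K7.H41.OP

/-- a projection onto a torsion-free complement of the torsion -/
theorem exists_proj (M : Type) [AddCommGroup M] [Module.Finite ℤ M] :
    ∃ (π : M →+ M) (t : ℕ), 0 < t ∧ (∀ x, t • (x - π x) = 0) ∧
      ∀ (x : M) (k : ℕ), 0 < k → k • π x = 0 → π x = 0 := by
  classical
  have hfin : Module.Finite ℤ (Submodule.torsion ℤ M) := inferInstance
  have h0 : Finite (Submodule.torsion ℤ M) :=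
    Module.finite_of_fg_torsion _ (Submodule.torsion_isTorsion (R := ℤ) (M := M))
  have hfree : Module.Free ℤ (M ⧸ Submodule.torsion ℤ M) := inferInstance
  obtain ⟨σ, hσ⟩ := Module.projective_lifting_property (Submodule.torsion ℤ M).mkQ
    (LinearMap.id : (M ⧸ Submodule.torsion ℤ M) →ₗ[ℤ] _) (Submodule.mkQ_surjective _)
  have hσ' : ∀ y, (Submodule.torsion ℤ M).mkQ (σ y) = y := fun y => by
    have := congrArg (fun f => f y) hσ
    simpa using this
  refine ⟨(σ.comp (Submodule.torsion ℤ M).mkQ).toAddMonoidHom, Nat.card (Submodule.torsion ℤ M),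
    Nat.card_pos, ?_, ?_⟩
  · intro x
    have hx : x - σ ((Submodule.torsion ℤ M).mkQ x) ∈ Submodule.torsion ℤ M := by
      refine (Submodule.Quotient.mk_eq_zero _).1 ?_
      change (Submodule.torsion ℤ M).mkQ (x - σ ((Submodule.torsion ℤ M).mkQ x)) = 0
      rw [map_sub, hσ', sub_self]
    have h1 : Nat.card (Submodule.torsion ℤ M) •
        (⟨x - σ ((Submodule.torsion ℤ M).mkQ x), hx⟩ : Submodule.torsion ℤ M) = 0 :=
      card_nsmul_eq_zero'
    have h2 := congrArg (fun z : Submodule.torsion ℤ M => (z : M)) h1
    simpa using h2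
  · intro x k hk h
    change k • σ ((Submodule.torsion ℤ M).mkQ x) = 0 at h
    change σ ((Submodule.torsion ℤ M).mkQ x) = 0
    have h1 : k • ((Submodule.torsion ℤ M).mkQ x) = 0 := by
      have := congrArg (Submodule.torsion ℤ M).mkQ h
      rwa [map_nsmul, hσ', map_zero] at this
    have h2 : (Submodule.torsion ℤ M).mkQ x = 0 := by
      have h3 : (k : ℤ) • ((Submodule.torsion ℤ M).mkQ x) = 0 := by
        rw [← h1]; exact natCast_zsmul _ _
      rcases smul_eq_zero.1 h3 with h4 | h4
      · omega
      · exact h4
    rw [h2, map_zero]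

/-- JOB DIV -/
theorem div : StDiv := by
  intro B _ hB
  have : Module.Finite ℤ (Additive (Abelianization B)) := by
    have i1 : Group.FG B := hB
    have i2 : Group.FG (Abelianization B) :=
      Group.fg_of_surjective (f := Abelianization.of) (QuotientGroup.mk_surjective)
    have i3 : AddGroup.FG (Additive (Abelianization B)) := inferInstance
    exact Module.Finite.iff_addGroup_fg.2 i3
  obtain ⟨π, t, ht, h1, h2⟩ := exists_proj (Additive (Abelianization B))
  refine ⟨t, ht, ?_⟩
  intro m htm hm A _ γ β hγ hβ
  have h1' : ∀ x, m • x = m • π x := by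
    intro x
    obtain ⟨k, rfl⟩ := htm
    have := h1 x
    have h3 : (t * k) • (x - π x) = 0 := by
      rw [mul_comm, mul_nsmul', this, nsmul_zero]
    rw [nsmul_sub, sub_eq_zero] at h3
    exact h3
  have hy : ∀ a, ∃ y : Additive (Abelianization B),
      Additive.ofMul (Abelianization.of (γ a)) = m • y := by
    intro a
    obtain ⟨y, hy⟩ := hγ a
    refine ⟨Additive.ofMul (Abelianization.of y), ?_⟩
    have h3 : Abelianization.of (γ a * (y ^ m)⁻¹) = 1 := by
      rw [← MonoidHom.mem_ker, Abelianization.ker_of]
      exact hy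
    rw [map_mul, map_inv, map_pow, mul_inv_eq_one] at h3
    rw [h3]
    rfl
  choose y hy using hy
  let yp : A →* Abelianization B :=
    { toFun := fun a => Additive.toMul (π (y a))
      map_one' := by
        have h3 : m • π (y 1) = 0 := by
          rw [← h1', ← hy, map_one, map_one]
          rfl
        rw [h2 _ m hm h3]
        rfl
      map_mul' := by
        intro a b
        have h3 : m • π (y (a * b) - y a - y b) = 0 := by
          rw [← h1', nsmul_sub, nsmul_sub, ← hy, ← hy, ← hy, map_mul, map_mul, ofMul_mul]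
          abel
        have h4 := h2 _ m hm h3
        rw [map_sub, map_sub, sub_sub, sub_eq_zero] at h4
        rw [h4]
        rfl }
  have hyp : ∀ a, Abelianization.of (γ a) = yp a ^ m := by
    intro a
    have h3 : Additive.ofMul (Abelianization.of (γ a)) = m • π (y a) := by
      rw [hy, h1']
    exact h3
  let βc : B →* Subgroup.center A := β.codRestrict (Subgroup.center A) hβ
  have hcomm : commutator B ≤ βc.ker := by
    rw [commutator_def, Subgroup.commutator_le]
    intro x _ y _
    rw [MonoidHom.mem_ker, commutatorElement_def, map_mul, map_mul, map_mul, map_inv, map_inv]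
    apply Subtype.ext
    change β x * β y * (β x)⁻¹ * (β y)⁻¹ = 1
    have := (Subgroup.mem_center_iff.1 (hβ x)) (β y)
    rw [← this]
    group
  let Λ : Abelianization B →* Subgroup.center A := QuotientGroup.lift (commutator B) βc
    (fun x hx => hcomm hx)
  let ρ : A →* A := (Subgroup.center A).subtype.comp (Λ.comp yp)
  refine ⟨ρ, fun a => (Λ (yp a)).2, ?_⟩
  intro a
  have h3 : β (γ a) = (Λ (Abelianization.of (γ a)) : Subgroup.center A) := by
    have : Λ (Abelianization.of (γ a)) = βc (γ a) := rfl
    rw [this]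
    rfl
  rw [h3, hyp, map_pow]
  rfl

end Pool.Agent.K7.H3.OP
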